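import Pool.Agent.Y113.P.Base
import Pool.Agent.Y113.HGGal
import Pool.Agent.Y118.HG.Defs2

/-!
# Shifts of a matrix of G-functions are G-systems (job HG-ONE)
-/

set_option autoImplicit false

open PowerSeries Finset.HasAntidiagonal

namespace Pool.Agent.Y46.HG

open Pool.Agent.Y113

/-! ## Families of polynomials with polynomial bounds -/

/-- families of integer polynomials of bounded degree with polynomially bounded coefficients -/
def BE (P : ℕ → Polynomial ℤ) : Prop := ∃ n E : ℕ, ∀ g : ℕ, Bd n (((g : ℝ) + 2) ^ E) (P g)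

lemma nat_succ_le (g n : ℕ) : (n : ℝ) + 1 ≤ ((g : ℝ) + 2) ^ n :=
  (succ_le_two_pow n).trans (two_pow_le g n)

lemma BE.mul {P Q : ℕ → Polynomial ℤ} (h : BE P) (h' : BE Q) : BE (fun g => P g * Q g) := by
  obtain ⟨n, E, hE⟩ := h
  obtain ⟨m, E', hE'⟩ := h'
  refine ⟨n + m, n + (E + E'), fun g => ((hE g).mul (hE' g)).mono le_rfl ?_⟩
  rw [pow_add _ n, pow_add _ E]
  exact mul_le_mul_of_nonneg_right (nat_succ_le g n) (by positivity)

lemma BE.const (P : Polynomial ℤ) : BE (fun _ => P) := by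
  obtain ⟨E, hE⟩ := pow_unbounded_of_one_lt (∑ i ∈ P.support, |((P.coeff i : ℤ) : ℝ)|)
    (show (1 : ℝ) < 2 by norm_num)
  refine ⟨P.natDegree, E, fun g => ⟨le_rfl, fun l => ?_⟩⟩
  refine le_trans ?_ (hE.le.trans (two_pow_le g E))
  by_cases hl : l ∈ P.support
  · exact Finset.single_le_sum (f := fun i => |((P.coeff i : ℤ) : ℝ)|) (fun i _ => abs_nonneg _) hl
  · rw [Polynomial.notMem_support_iff.1 hl]
    simp only [Int.cast_zero, abs_zero]
    exact Finset.sum_nonneg fun i _ => abs_nonneg _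

lemma BE.lin : BE (fun g => 1 - Polynomial.C (g : ℤ) * Polynomial.X) := by
  refine ⟨1, 1, fun g => Bd.lin _ _ (one_le_pow₀ (one_le_base g)) ?_⟩
  have : (0 : ℝ) ≤ g := by positivity
  push_cast
  rw [abs_of_nonneg this, pow_one]
  linarith

lemma BE.pow {P : ℕ → Polynomial ℤ} (h : BE P) (k : ℕ) : BE (fun g => P g ^ k) := by
  induction k with
  | zero => simpa using BE.const 1
  | succ k ih => simpa [pow_succ] using ih.mul h

lemma BE.add {P Q : ℕ → Polynomial ℤ} (h : BE P) (h' : BE Q) : BE (fun g => P g + Q g) := by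
  obtain ⟨n, E, hE⟩ := h
  obtain ⟨m, E', hE'⟩ := h'
  refine ⟨max n m, 1 + (E + E'), fun g => ⟨?_, fun l => ?_⟩⟩
  · exact (Polynomial.natDegree_add_le _ _).trans (max_le_max (hE g).1 (hE' g).1)
  · rw [Polynomial.coeff_add]
    push_cast
    refine (abs_add_le _ _).trans ?_
    have h1 := (hE g).2 l
    have h2 := (hE' g).2 l
    have hg := one_le_base g
    have e1 : ((g : ℝ) + 2) ^ E ≤ ((g : ℝ) + 2) ^ (E + E') := base_mono hg (by omega)
    have e2 : ((g : ℝ) + 2) ^ E' ≤ ((g : ℝ) + 2) ^ (E + E') := base_mono hg (by omega)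
    have e3 : (2 : ℝ) ≤ ((g : ℝ) + 2) ^ 1 := by
      have := two_pow_le g 1
      linarith
    have e4 : (0 : ℝ) ≤ ((g : ℝ) + 2) ^ (E + E') := by positivity
    rw [pow_add _ 1]
    nlinarith

lemma BE.sum {σ : Type*} (s : Finset σ) {f : σ → ℕ → Polynomial ℤ} (h : ∀ i ∈ s, BE (f i)) :
    BE (fun g => ∑ i ∈ s, f i g) := by
  classical
  induction s using Finset.induction_on with
  | empty => simpa using BE.const 0
  | insert a s ha ih =>
    have h1 := (h a (Finset.mem_insert_self _ _)).add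
      (ih fun i hi => h i (Finset.mem_insert_of_mem hi))
    have h2 : (fun g => ∑ i ∈ insert a s, f i g) = fun g => f a g + ∑ i ∈ s, f i g := by
      funext g
      rw [Finset.sum_insert ha]
    rw [h2]
    exact h1

/-! ## The homogenised shift -/

/-- the homogenised shift of a polynomial of degree at most `p` -/
noncomputable def hp (p : ℕ) (P : Polynomial ℤ) (g : ℕ) : Polynomial ℤ :=
  ∑ i ∈ Finset.range (p + 1), Polynomial.C (P.coeff i) *
    (Polynomial.X ^ i * (1 - Polynomial.C (g : ℤ) * Polynomial.X) ^ (p - i))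

lemma BE.hp (p : ℕ) (P : Polynomial ℤ) : BE (hp p P) :=
  BE.sum _ fun _ _ => (BE.const _).mul ((BE.const _).mul (BE.lin.pow _))

lemma ps_lin (g : ℕ) : ps (1 - Polynomial.C (g : ℤ) * Polynomial.X) = 1 - (g : ℚ⟦X⟧) * X := by
  rw [ps_sub, ps_mul, ps_C, ps_X, ps_one]
  push_cast
  rfl

lemma lin_mul_sh (g : ℕ) : (1 - (g : ℚ⟦X⟧) * X) * sh g = X := by
  have hC : (g : ℚ⟦X⟧) = PowerSeries.C (g : ℚ) := (map_natCast _ _).symm
  ext m
  rw [sub_mul, one_mul, map_sub, mul_assoc, hC, coeff_C_mul]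
  rcases m with _ | m
  · simp [sh]
  · rw [coeff_succ_X_mul]
    rcases m with _ | m
    · simp [sh]
    · simp only [sh, coeff_mk, coeff_X]
      simp only [Nat.add_eq_zero_iff, one_ne_zero, and_false, if_false, Nat.add_sub_cancel]
      rw [if_neg (by omega), pow_succ]
      ring

lemma lin_sq_deriv (g : ℕ) : (1 - (g : ℚ⟦X⟧) * X) ^ 2 * d⁄dX ℚ (sh g) = 1 := by
  have h1 := congrArg (fun f => (d⁄dX ℚ) f) (lin_mul_sh g)
  have hC : d⁄dX ℚ ((g : ℚ⟦X⟧)) = 0 := by
    rw [show (g : ℚ⟦X⟧) = PowerSeries.C (g : ℚ) from (map_natCast _ _).symm]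
    exact derivative_C
  simp only [Derivation.leibniz, smul_eq_mul, map_sub, Derivation.map_one_eq_zero, derivative_X,
    hC, mul_one, mul_zero, add_zero, zero_sub] at h1
  have h2 := lin_mul_sh g
  calc (1 - (g : ℚ⟦X⟧) * X) ^ 2 * d⁄dX ℚ (sh g)
      = (1 - (g : ℚ⟦X⟧) * X) * ((1 - (g : ℚ⟦X⟧) * X) * d⁄dX ℚ (sh g) + sh g * -(g : ℚ⟦X⟧)) +
        (g : ℚ⟦X⟧) * ((1 - (g : ℚ⟦X⟧) * X) * sh g) := by ring
    _ = (1 - (g : ℚ⟦X⟧) * X) * 1 + (g : ℚ⟦X⟧) * X := by rw [h1, h2]
    _ = 1 := by ring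

lemma ps_hp {p : ℕ} {P : Polynomial ℤ} (hP : P.natDegree ≤ p) (g : ℕ) :
    ps (hp p P g) = (1 - (g : ℚ⟦X⟧) * X) ^ p * (ps P).subst (sh g) := by
  unfold hp
  rw [ps_sum]
  have h1 : (ps P).subst (sh g) = ∑ i ∈ Finset.range (p + 1), (P.coeff i : ℚ⟦X⟧) * (sh g) ^ i := by
    unfold ps
    rw [subst_coe (hasSubst_sh g), Polynomial.aeval_eq_sum_range' (n := p + 1)]
    · refine Finset.sum_congr rfl fun i _ => ?_
      rw [Polynomial.coeff_map, PowerSeries.smul_eq_C_mul]
      congr 1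
      simp
    · exact lt_of_le_of_lt (Polynomial.natDegree_map_le) (by omega)
  rw [h1, Finset.mul_sum]
  refine Finset.sum_congr rfl fun i hi => ?_
  rw [Finset.mem_range] at hi
  rw [ps_mul, ps_mul, ps_pow, ps_pow, ps_C, ps_X, ps_lin]
  have h2 : (1 - (g : ℚ⟦X⟧) * X) ^ p = (1 - (g : ℚ⟦X⟧) * X) ^ (p - i) * (1 - (g : ℚ⟦X⟧) * X) ^ i := by
    rw [← pow_add]
    congr 1
    omega
  rw [h2]
  calc (P.coeff i : ℚ⟦X⟧) * (X ^ i * (1 - (g : ℚ⟦X⟧) * X) ^ (p - i))
      = (P.coeff i : ℚ⟦X⟧) * (((1 - (g : ℚ⟦X⟧) * X) * sh g) ^ i *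
        (1 - (g : ℚ⟦X⟧) * X) ^ (p - i)) := by rw [lin_mul_sh]
    _ = _ := by rw [mul_pow]; ring

/-- the value of the homogenised shift -/
lemma aeval_hp {p : ℕ} {P : Polynomial ℤ} (hP : P.natDegree ≤ p) (g : ℕ) {t : ℝ} (h0 : t ≠ 0)
    (ht : t - g ≠ 0) : Polynomial.aeval (1 / t) (hp p P g) =
      (1 - g * (1 / t)) ^ p * Polynomial.aeval (1 / (t - g)) P := by
  unfold hp
  rw [map_sum, Polynomial.aeval_eq_sum_range' (n := p + 1) (by omega), Finset.mul_sum]
  refine Finset.sum_congr rfl fun i hi => ?_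
  rw [Finset.mem_range] at hi
  simp only [map_mul, map_pow, map_sub, map_one, Polynomial.aeval_C, Polynomial.aeval_X]
  have h2 : (1 - (g : ℝ) * (1 / t)) ^ p =
      (1 - (g : ℝ) * (1 / t)) ^ (p - i) * (1 - (g : ℝ) * (1 / t)) ^ i := by
    rw [← pow_add]
    congr 1
    omega
  have h3 : (1 - (g : ℝ) * (1 / t)) * (1 / (t - g)) = 1 / t := by
    field_simp
  rw [h2]
  calc _ = (P.coeff i : ℝ) * (((1 - (g : ℝ) * (1 / t)) * (1 / (t - g))) ^ i *
        (1 - (g : ℝ) * (1 / t)) ^ (p - i)) := by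
        rw [h3]
        simp
    _ = _ := by
        rw [mul_pow, zsmul_eq_mul]
        ring

/-! ## Denominators -/

lemma exists_IP (P : Polynomial ℚ) : ∃ d : ℕ, 0 < d ∧ IP d P := by
  refine ⟨∏ i ∈ P.support, (P.coeff i).den, Finset.prod_pos fun i _ => (P.coeff i).den_pos,
    IP.of_coeff fun l => ?_⟩
  by_cases hl : l ∈ P.support
  · refine ⟨(∏ i ∈ P.support.erase l, (P.coeff i).den : ℕ) * (P.coeff l).num, ?_⟩
    rw [← Finset.prod_erase_mul _ _ hl]
    push_cast
    rw [mul_assoc, Rat.den_mul_eq_num]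
  · exact ⟨0, by rw [Polynomial.notMem_support_iff.1 hl]; simp⟩

/-! ## The theorem -/

theorem t_one : Pool.Agent.Y118.HG.T_one := by
  classical
  intro n f A Z W hf hZ hW hSZ hSW
  -- integral coefficients
  obtain ⟨df, hdf0, hdf⟩ := exists_IP f
  choose dA hdA0 hdA using fun i j => exists_IP (A i j)
  set N : ℕ := df * ∏ i : Fin n, ∏ j : Fin n, dA i j with hN
  have hN0 : 0 < N := Nat.mul_pos hdf0 (Finset.prod_pos fun i _ => Finset.prod_pos fun j _ => hdA0 i j)
  have hF : IP N f := by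
    rw [hN, mul_comm]
    exact hdf.mul_left _
  have hB : ∀ i j, IP N (A i j) := by
    intro i j
    have h1 : N = (df * ((∏ i' ∈ Finset.univ.erase i, ∏ j' : Fin n, dA i' j') *
        ∏ j' ∈ Finset.univ.erase j, dA i j')) * dA i j := by
      rw [hN, ← Finset.prod_erase_mul _ _ (Finset.mem_univ i),
        ← Finset.prod_erase_mul Finset.univ (fun j' => dA i j') (Finset.mem_univ j)]
      ring
    rw [h1]
    exact (hdA i j).mul_left _
  obtain ⟨F, hF⟩ := hF
  choose B hB using hB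
  -- the degrees
  obtain ⟨p, hpF, hpB⟩ : ∃ p : ℕ, F.natDegree ≤ p ∧ ∀ i j, (B i j).natDegree ≤ p := by
    refine ⟨F.natDegree + ∑ i, ∑ j, (B i j).natDegree, by omega, fun i j => ?_⟩
    have h1 : ∑ j, (B i j).natDegree ≤ ∑ i, ∑ j, (B i j).natDegree :=
      Finset.single_le_sum (f := fun i => ∑ j, (B i j).natDegree)
        (fun _ _ => Nat.zero_le _) (Finset.mem_univ i)
    have h2 : (B i j).natDegree ≤ ∑ j, (B i j).natDegree :=
      Finset.single_le_sum (f := fun j => (B i j).natDegree)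
        (fun _ _ => Nat.zero_le _) (Finset.mem_univ j)
    omega
  have hsys : ∀ i j, ps F * d⁄dX ℚ (Z i j) = ∑ k, Z i k * ps (B k j) := by
    intro i j
    have h1 := hZ i j
    have hFps : ps F = PowerSeries.C (N : ℚ) * (f : ℚ⟦X⟧) := by
      unfold ps
      rw [hF, Polynomial.coe_mul, Polynomial.coe_C]
    have hBps : ∀ k, ps (B k j) = PowerSeries.C (N : ℚ) * (A k j : ℚ⟦X⟧) := by
      intro k
      unfold ps
      rw [hB k j, Polynomial.coe_mul, Polynomial.coe_C]
    rw [hFps, mul_assoc, h1, Finset.mul_sum]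
    refine Finset.sum_congr rfl fun k _ => ?_
    rw [hBps]
    ring
  -- the system of the shift
  let TT : ℕ → Polynomial ℤ := fun g =>
    (1 - Polynomial.C (g : ℤ) * Polynomial.X) ^ 2 * hp p F g
  have hTT : BE TT := (BE.lin.pow 2).mul (BE.hp p F)
  have hshift : ∀ g i j, ps (TT g) * d⁄dX ℚ ((Z i j).subst (sh g)) =
      ∑ k, (Z i k).subst (sh g) * ps (hp p (B k j) g) := by
    intro g i j
    have h1 := congrArg (fun h => PowerSeries.substAlgHom (hasSubst_sh g) h) (hsys i j)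
    simp only [map_mul, map_sum, coe_substAlgHom] at h1
    rw [ps_mul, ps_pow, ps_lin, ps_hp hpF, derivative_subst (hasSubst_sh g)]
    calc _ = ((1 - (g : ℚ⟦X⟧) * X) ^ 2 * d⁄dX ℚ (sh g)) * ((1 - (g : ℚ⟦X⟧) * X) ^ p *
          ((ps F).subst (sh g) * (d⁄dX ℚ (Z i j)).subst (sh g))) := by ring
      _ = _ := by
          rw [lin_sq_deriv, one_mul, h1, Finset.mul_sum]
          refine Finset.sum_congr rfl fun k _ => ?_
          rw [ps_hp (hpB k j)]
          ring
  have hinv : ∀ g i j, ∑ k, (W i k).subst (sh g) * (Z k j).subst (sh g) =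
      if i = j then 1 else 0 := by
    intro g i j
    have h1 := congrArg (fun h => PowerSeries.substAlgHom (hasSubst_sh g) h) (hW i j)
    simp only [map_mul, map_sum, coe_substAlgHom] at h1
    rw [h1]
    split_ifs
    · rw [← coe_substAlgHom (hasSubst_sh g), map_one]
    · rw [← coe_substAlgHom (hasSubst_sh g), map_zero]
  -- the constants
  obtain ⟨q1, E1, h1⟩ := hTT
  choose q2 E2 h2 using fun i j => BE.hp p (B i j)
  choose E3 h3 using fun i j => SDE.subst (hSZ i j)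
  choose E4 h4 using fun i j => SDE.subst (hSW i j)
  set q := q1 + ∑ i, ∑ j, q2 i j with hq
  set E := E1 + (∑ i, ∑ j, E2 i j) + (∑ i, ∑ j, E3 i j) + (∑ i, ∑ j, E4 i j) with hE
  have hle : ∀ (u : Fin n → Fin n → ℕ) i j, u i j ≤ ∑ i, ∑ j, u i j := by
    intro u i j
    have h1 := Finset.single_le_sum (f := fun i => ∑ j, u i j)
      (fun _ _ => Nat.zero_le _) (Finset.mem_univ i)
    have h2 := Finset.single_le_sum (f := fun j => u i j)
      (fun _ _ => Nat.zero_le _) (Finset.mem_univ j)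
    exact h2.trans h1
  obtain ⟨E', hE'⟩ := Pool.Agent.Y113.HGG.t_gal n q
  -- non-vanishing
  obtain ⟨c, hc⟩ : ∃ c : ℕ, ∀ x : ℝ, 0 < x → x ≤ 1 / 2 ^ c → Polynomial.aeval x F ≠ 0 := by
    have hcont : Continuous fun x : ℝ => Polynomial.aeval x F := Polynomial.continuous_aeval F
    have hF0 : Polynomial.aeval (0 : ℝ) F ≠ 0 := by
      have h4 : Polynomial.aeval (0 : ℝ) F = ((F.coeff 0 : ℤ) : ℝ) := by
        rw [Polynomial.aeval_def, Polynomial.eval₂_at_zero]
        rfl
      rw [h4]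
      have h5 : ((F.coeff 0 : ℤ) : ℚ) = N * f.coeff 0 := by
        have h6 := congrArg (fun P => Polynomial.coeff P 0) hF
        simpa using h6
      have h6 : F.coeff 0 ≠ 0 := by
        intro h7
        rw [h7, Int.cast_zero] at h5
        exact mul_ne_zero (by positivity) hf h5.symm
      simpa using h6
    have hev : ∀ᶠ x in nhds (0 : ℝ), Polynomial.aeval x F ≠ 0 := hcont.continuousAt.eventually_ne hF0
    obtain ⟨ε, hε, hball⟩ := Metric.eventually_nhds_iff.1 hev
    obtain ⟨c, hc⟩ := exists_pow_lt_of_lt_one hε (show (1 / 2 : ℝ) < 1 by norm_num)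
    refine ⟨c, fun x hx0 hx => hball ?_⟩
    rw [Real.dist_eq, sub_zero, abs_of_pos hx0]
    refine lt_of_le_of_lt hx ?_
    rwa [one_div_pow] at hc
  refine ⟨q, (E + 1) * E' + (c + 1), TT, fun g => ?_, fun g t ht => ?_⟩
  · have hg := one_le_base g
    have hC : (1 : ℝ) ≤ ((g : ℝ) + 2) ^ E := one_le_pow₀ hg
    have hsys := hE' (((g : ℝ) + 2) ^ E) (TT g) (fun i j => hp p (B i j) g)
      (fun i j => (Z i j).subst (sh g)) (fun i j => (W i j).subst (sh g)) hC
      ((h1 g).mono (by omega) (base_mono hg (by omega)))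
      (fun i j => (h2 i j g).mono (by have := hle q2 i j; omega)
        (base_mono hg (by have := hle E2 i j; omega)))
      (hshift g) (hinv g)
      (fun i j => (h3 i j g).mono (base_mono hg (by have := hle E3 i j; omega)))
      (fun i j => (h4 i j g).mono (base_mono hg (by have := hle E4 i j; omega)))
    refine hsys.mono le_rfl ((pow_base g E E').trans (base_mono hg (by omega)))
  · have hg := one_le_base g
    have hg0 : (0 : ℝ) ≤ g := by positivity
    have h5 : ((g : ℝ) + 2) ^ (c + 1) ≤ t := (base_mono hg (by omega)).trans ht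
    have h6 : (2 : ℝ) ^ c ≤ t - g := by
      have e1 : (2 : ℝ) ^ c * ((g : ℝ) + 2) ≤ t := by
        refine le_trans ?_ h5
        rw [pow_succ]
        exact mul_le_mul_of_nonneg_right (two_pow_le g c) (by positivity)
      have e2 : (1 : ℝ) ≤ 2 ^ c := one_le_pow₀ (by norm_num)
      nlinarith
    have h7 : (0 : ℝ) < t - g := lt_of_lt_of_le (by positivity) h6
    have h8 : (0 : ℝ) < t := by linarith
    show Polynomial.aeval (1 / (t : ℝ))
      ((1 - Polynomial.C (g : ℤ) * Polynomial.X) ^ 2 * hp p F g) ≠ 0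
    rw [map_mul, map_pow, map_sub, map_one, map_mul, Polynomial.aeval_C, Polynomial.aeval_X,
      aeval_hp hpF g h8.ne' h7.ne']
    have h9 : (1 - (g : ℝ) * (1 / t)) ≠ 0 := by
      have : 1 - (g : ℝ) * (1 / t) = (t - g) / t := by
        field_simp
      rw [this]
      exact (div_pos h7 h8).ne'
    refine mul_ne_zero (pow_ne_zero _ ?_) (mul_ne_zero (pow_ne_zero _ h9)
      (hc _ (by positivity) (one_div_le_one_div_of_le (by positivity) h6)))
    simpa using h9

end Pool.Agent.Y46.HG
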